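import Mathlib
import Pool.Agent.Helper655.Q2
import Pool.Agent.Helper655.R3

set_option autoImplicit false

namespace Pool.Agent.Results.MP_129fce_an.PeakNotGevrey

open Filter Topology Pool.Agent.Helper655.Peak

/-- `E` is a peak set for the class `A_α`: some `f`, analytic in the open unit disc, continuous on
the closed disc and Hölder continuous of order `α` on the unit circle, equals `1` on `E` and has
modulus less than `1` at the other points of the circle. -/
def IsPeakSet (α : ℝ) (E : Set ℂ) : Prop :=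
  ∃ f : ℂ → ℂ, DifferentiableOn ℂ f (Metric.ball (0 : ℂ) 1) ∧
    ContinuousOn f (Metric.closedBall (0 : ℂ) 1) ∧
    (∃ C : ℝ, ∀ x ∈ Metric.sphere (0 : ℂ) 1, ∀ y ∈ Metric.sphere (0 : ℂ) 1,
      ‖f x - f y‖ ≤ C * ‖x - y‖ ^ α) ∧
    (∀ x ∈ E, f x = 1) ∧ ∀ x ∈ Metric.sphere (0 : ℂ) 1, x ∉ E → ‖f x‖ < 1

/-- `E` is a zero set for the Gevrey class `G_α`: some `f`, analytic in the open unit disc and not
identically zero, satisfies `|f^(n)| ≤ C^(n+1) (n!)^(1+1/α)` in the disc for all `n`, and every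
derivative of `f` (with its continuous boundary values) vanishes on `E`. -/
def IsGevreyZeroSet (α : ℝ) (E : Set ℂ) : Prop :=
  ∃ f : ℂ → ℂ, DifferentiableOn ℂ f (Metric.ball (0 : ℂ) 1) ∧
    (∃ z ∈ Metric.ball (0 : ℂ) 1, f z ≠ 0) ∧
    (∃ C : ℝ, ∀ n : ℕ, ∀ z ∈ Metric.ball (0 : ℂ) 1,
      ‖iteratedDeriv n f z‖ ≤ C ^ (n + 1) * (Nat.factorial n : ℝ) ^ (1 + 1 / α)) ∧
    ∀ n : ℕ, ∀ e ∈ E, Tendsto (iteratedDeriv n f) (𝓝[Metric.ball (0 : ℂ) 1] e) (𝓝 0)

theorem case_one : IsPeakSet 1 {1} ∧ ¬ IsGevreyZeroSet 1 {1} := by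
  constructor
  · refine ⟨fun z => (1 + z) / 2, ?_, ?_, ⟨1, ?_⟩, ?_, ?_⟩
    · fun_prop
    · fun_prop
    · intro x _ y _
      rw [Real.rpow_one, one_mul]
      have : (1 + x) / 2 - (1 + y) / 2 = (x - y) / 2 := by ring
      rw [this, norm_div]
      have h2 : ‖(2 : ℂ)‖ = 2 := by simp
      rw [h2]
      have := norm_nonneg (x - y)
      linarith
    · intro x hx
      rw [Set.mem_singleton_iff] at hx
      rw [hx]
      norm_num
    · intro x hx hx1
      rw [mem_sphere_zero_iff_norm] at hx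
      rw [Set.mem_singleton_iff] at hx1
      have h1 : x.re * x.re + x.im * x.im = 1 := by
        have := Complex.normSq_eq_norm_sq x
        rw [Complex.normSq_apply, hx] at this
        linarith
      have hre : x.re < 1 := by
        have h2 : x.re ≤ 1 := by nlinarith [mul_self_nonneg x.im]
        rcases lt_or_eq_of_le h2 with h3 | h3
        · exact h3
        · exfalso
          apply hx1
          apply Complex.ext
          · rw [h3]; rfl
          · have h4 : x.im * x.im = 0 := by rw [h3] at h1; linarith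
            rw [mul_self_eq_zero.mp h4]; rfl
      have h5 : ‖(1 + x) / 2‖ ^ 2 < 1 := by
        rw [← Complex.normSq_eq_norm_sq, Complex.normSq_apply]
        simp only [Complex.div_ofNat_re, Complex.div_ofNat_im, Complex.add_re, Complex.add_im,
          Complex.one_re, Complex.one_im]
        nlinarith
      nlinarith [norm_nonneg ((1 + x) / 2)]
  · rintro ⟨f, hf, hne, ⟨C, hC⟩, hflat⟩
    have hpi := Real.pi_gt_three
    obtain ⟨C1, c, hC1, hc, hb⟩ := flat_exp 1 one_pos f hf C hC
    apply no_flat 1 one_pos f hf hne {1} (by intro e he; rw [Set.mem_singleton_iff] at he; simp [he])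
      C1 c hC1 hc
      (fun e he => hb e (by rw [Set.mem_singleton_iff] at he; simp [he]) (fun m => hflat m e he))
      (fun n => (1 / 2 : ℝ) ^ (n + 1)) (fun n => (1 / 2 : ℝ) ^ n) (fun n => (1 / 2 : ℝ) ^ n)
    · intro n; positivity
    · intro n
      exact pow_le_pow_of_le_one (by norm_num) (by norm_num) (by omega)
    · intro n
      have : (1 / 2 : ℝ) ^ n ≤ 1 := pow_le_one₀ (by norm_num) (by norm_num)
      linarith
    · intro n; positivity
    · have key : ∀ m n : ℕ, m < n → Disjoint (Set.Ioc ((1 / 2 : ℝ) ^ (m + 1)) ((1 / 2 : ℝ) ^ m))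
          (Set.Ioc ((1 / 2 : ℝ) ^ (n + 1)) ((1 / 2 : ℝ) ^ n)) := by
        intro m n h
        rw [Set.disjoint_left]
        intro y hy1 hy2
        have : (1 / 2 : ℝ) ^ n ≤ (1 / 2 : ℝ) ^ (m + 1) :=
          pow_le_pow_of_le_one (by norm_num) (by norm_num) (by omega)
        linarith [hy1.1, hy2.2]
      intro m n hmn
      rcases lt_or_gt_of_ne hmn with h | h
      · exact key m n h
      · exact (key n m h).symm
    · intro n θ hθ
      refine ⟨1, rfl, ?_⟩
      have h1 := chord_le θ 0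
      simp only [Complex.ofReal_zero, zero_mul, Complex.exp_zero, sub_zero] at h1
      refine h1.trans ?_
      have h2 : 0 < θ := lt_trans (by positivity) hθ.1
      rw [abs_of_pos h2]
      exact hθ.2
    · have h1 : ∀ N : ℕ, ∑ n ∈ Finset.range N, ((1 / 2 : ℝ) ^ n - (1 / 2 : ℝ) ^ (n + 1)) *
          ((1 / 2 : ℝ) ^ n) ^ (-(1 : ℝ)) = N * (1 / 2) := by
        intro N
        have h2 : ∀ n ∈ Finset.range N, ((1 / 2 : ℝ) ^ n - (1 / 2 : ℝ) ^ (n + 1)) *
          ((1 / 2 : ℝ) ^ n) ^ (-(1 : ℝ)) = 1 / 2 := by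
          intro n _
          rw [Real.rpow_neg_one, pow_succ]
          have : (1 / 2 : ℝ) ^ n ≠ 0 := by positivity
          field_simp
          norm_num
        rw [Finset.sum_congr rfl h2, Finset.sum_const, Finset.card_range, nsmul_eq_mul]
      simp only [h1]
      exact tendsto_natCast_atTop_atTop.atTop_mul_const (by norm_num)

theorem case_lt (α : ℝ) (hα0 : 0 < α) (hα1 : α < 1) :
    ∃ E : Set ℂ, E ⊆ Metric.sphere (0 : ℂ) 1 ∧ IsClosed E ∧ IsPeakSet α E ∧
      ¬ IsGevreyZeroSet α E := by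
  have hex := exists_data α hα0 hα1
  have hq : 1 < 1 / α := (one_lt_div hα0).mpr hα1
  set q := 1 / α with hqdef
  have hqα : q * α = 1 := by rw [hqdef]; field_simp
  obtain ⟨n0, hn0, D, hD⟩ := hex
  refine ⟨D.E, ?_, D.isClosed_E, D.peak, ?_⟩
  · intro e he
    rw [mem_sphere_zero_iff_norm]
    exact D.E_norm he
  · rintro ⟨f, hf, hne, ⟨C, hC⟩, hflat⟩
    have hpi := Real.pi_gt_three
    obtain ⟨C1, c, hC1, hc, hb⟩ := flat_exp α hα0 f hf C hC
    have hL : ∀ n, 0 < Ln n0 n := fun n => Ln_pos n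
    have hN : ∀ n, (0 : ℝ) < Nn q n0 n := fun n => by exact_mod_cast Nn_pos hn0 n
    apply no_flat α hα0 f hf hne D.E (fun e he => D.E_norm he) C1 c hC1 hc
      (fun e he => hb e (D.E_norm he) (fun m => hflat m e he))
      (fun n => Ln n0 n) (fun n => 3 / 2 * Ln n0 n) (fun n => Ln n0 n / (2 * Nn q n0 n))
    · intro n; exact (hL n).le
    · intro n; have := hL n; linarith
    · intro n
      have := Ln_le hn0 n
      linarith
    · intro n
      have h1 := hL n
      have h2 := hN n
      positivity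
    · have key : ∀ m n : ℕ, m < n → Disjoint (Set.Ioc (Ln n0 m) (3 / 2 * Ln n0 m))
          (Set.Ioc (Ln n0 n) (3 / 2 * Ln n0 n)) := by
        intro m n h
        rw [Set.disjoint_left]
        intro y hy1 hy2
        have h2 := Ln_half (n0 := n0) h
        have := hL m
        linarith [hy1.1, hy2.2]
      intro m n hmn
      rcases lt_or_gt_of_ne hmn with h | h
      · exact key m n h
      · exact (key n m h).symm
    · intro n θ hθ
      have h1 := hL n
      have h2 := hN n
      set y : ℝ := (θ / Ln n0 n - 1) * (2 * Nn q n0 n) with hy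
      have hy0 : 0 < y := by
        have : 1 < θ / Ln n0 n := (one_lt_div h1).mpr hθ.1
        rw [hy]
        have : 0 < θ / Ln n0 n - 1 := by linarith
        positivity
      have hyN : y ≤ Nn q n0 n := by
        have : θ / Ln n0 n ≤ 3 / 2 := by rw [div_le_iff₀ h1]; exact hθ.2
        rw [hy]
        nlinarith
      have hceil1 : 0 < ⌈y⌉₊ := Nat.ceil_pos.mpr hy0
      have hceil2 : ⌈y⌉₊ ≤ Nn q n0 n := Nat.ceil_le.mpr hyN
      have hceil3 : y ≤ ⌈y⌉₊ := Nat.le_ceil y
      have hceil4 : (⌈y⌉₊ : ℝ) < y + 1 := Nat.ceil_lt_add_one hy0.le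
      let i : Fin (Nn q n0 n) := ⟨⌈y⌉₊ - 1, by omega⟩
      have hi : ((i : ℕ) : ℝ) = ⌈y⌉₊ - 1 := by
        simp only [i]
        rw [Nat.cast_sub (by omega)]
        simp
      refine ⟨zz q n0 ⟨n, i⟩, ?_, ?_⟩
      · rw [← hD]
        exact D.ζ_mem _
      · unfold zz
        refine (chord_le θ (xx q n0 ⟨n, i⟩)).trans ?_
        have h3 : θ - xx q n0 ⟨n, i⟩ = Ln n0 n / (2 * Nn q n0 n) * (y - (i : ℕ)) := by
          unfold xx
          rw [hy]
          field_simp
          ring
        rw [h3, abs_mul, abs_of_pos (by positivity)]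
        have h4 : |y - (i : ℕ)| ≤ 1 := by
          rw [hi, abs_le]
          constructor <;> linarith
        have h5 : 0 < Ln n0 n / (2 * Nn q n0 n) := by positivity
        nlinarith
    · have hterm : ∀ n : ℕ, 2 ^ (α - 1) * ((n + n0 : ℕ) : ℝ)⁻¹ ≤
          (3 / 2 * Ln n0 n - Ln n0 n) * (Ln n0 n / (2 * Nn q n0 n)) ^ (-α) := by
        intro n
        have h1 := hL n
        have h2 := hN n
        have hM : (0 : ℝ) < ((n + n0 : ℕ) : ℝ) := by positivity
        have h3 := cc_ge (q := q) hn0 n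
        have h4 : ((n + n0 : ℕ) : ℝ)⁻¹ ≤ (cc q n0 n) ^ α := by
          calc ((n + n0 : ℕ) : ℝ)⁻¹ = (((n + n0 : ℕ) : ℝ) ^ (-q)) ^ α := by
                rw [← Real.rpow_mul hM.le, neg_mul, hqα, Real.rpow_neg_one]
            _ ≤ _ := Real.rpow_le_rpow (by positivity) h3 hα0.le
        have h5 : (cc q n0 n) ^ α = (Nn q n0 n : ℝ) ^ α * Ln n0 n ^ (1 - α) := by
          unfold cc
          rw [Real.mul_rpow h2.le (by positivity), ← Real.rpow_mul h1.le]
          congr 2
          rw [sub_mul, hqα, one_mul]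
        have h6 : (3 / 2 * Ln n0 n - Ln n0 n) * (Ln n0 n / (2 * Nn q n0 n)) ^ (-α) =
            2 ^ (α - 1) * ((Nn q n0 n : ℝ) ^ α * Ln n0 n ^ (1 - α)) := by
          rw [Real.rpow_neg (by positivity), Real.div_rpow h1.le (by positivity),
            Real.mul_rpow (by norm_num) h2.le, Real.rpow_sub h1, Real.rpow_one,
            Real.rpow_sub (by norm_num : (0 : ℝ) < 2), Real.rpow_one]
          field_simp
          norm_num
        rw [h6, ← h5]
        gcongr
      have hdiv : Tendsto (fun N : ℕ => ∑ n ∈ Finset.range N, 2 ^ (α - 1) * ((n + n0 : ℕ) : ℝ)⁻¹)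
          atTop atTop := by
        have hns : ¬ Summable (fun n : ℕ => ((n + n0 : ℕ) : ℝ)⁻¹) := by
          intro h
          have h1 := (summable_nat_add_iff (f := fun n : ℕ => ((n : ℕ) : ℝ)⁻¹) n0).mp h
          exact Real.not_summable_natCast_inv h1
        have h2 := (not_summable_iff_tendsto_nat_atTop_of_nonneg
          (fun n : ℕ => by positivity)).mp hns
        have h3 := h2.const_mul_atTop (show (0 : ℝ) < 2 ^ (α - 1) by positivity)
        simp only [Finset.mul_sum] at h3
        exact h3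
      exact tendsto_atTop_mono (fun N => Finset.sum_le_sum (fun n _ => hterm n)) hdiv

/-- For every `0 < α ≤ 1` there is a closed subset of the unit circle that is a peak set for the
analytic Lipschitz class `A_α` but not a zero set for the Gevrey class `G_α`. -/
theorem result : ∀ α : ℝ, 0 < α → α ≤ 1 → ∃ E : Set ℂ, E ⊆ Metric.sphere (0 : ℂ) 1 ∧
    IsClosed E ∧ IsPeakSet α E ∧ ¬ IsGevreyZeroSet α E := by
  intro α hα0 hα1
  rcases lt_or_eq_of_le hα1 with h | h
  · exact case_lt α hα0 h
  · subst h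
    refine ⟨{1}, ?_, isClosed_singleton, case_one⟩
    intro e he
    rw [Set.mem_singleton_iff] at he
    simp [he]

end Pool.Agent.Results.MP_129fce_an.PeakNotGevrey
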